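import Pool.Agent.L0h87.LE.StmC

set_option autoImplicit false

/-!
# Modules AP3 and SM3 of the project LE: numbers of solutions
-/

namespace Pool.Agent.L0h56.LE

open Finset Pool.Agent.L0h87.LE

theorem AP3 : Pool.Agent.L0h87.LE.AP3 := by
  intro N hN
  obtain ⟨K, hK⟩ : ∃ K : ℕ, K = (N + 3) / 4 := ⟨_, rfl⟩
  have hcard : K * K ≤ (sol ![1, -2, 1] N 0).card := by
    have h1 : ((range K) ×ˢ (range K)).card = K * K := by
      rw [Finset.card_product, Finset.card_range]
    rw [← h1]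
    refine Finset.card_le_card_of_injOn
      (fun p => ![4 * p.1 + 1, 2 * (p.1 + p.2) + 1, 4 * p.2 + 1]) ?_ ?_
    · rintro ⟨a, b⟩ hp
      have hab : a < K ∧ b < K := by simpa using hp
      have hm : (![4 * a + 1, 2 * (a + b) + 1, 4 * b + 1] : Fin 3 → ℕ) ∈ sol ![1, -2, 1] N 0 := by
        unfold sol odds
        rw [Finset.mem_filter, Fintype.mem_piFinset]
        refine ⟨fun i => ?_, ?_⟩
        · fin_cases i
          · simp only [Finset.mem_filter, Finset.mem_Icc]
            show (1 ≤ 4 * a + 1 ∧ 4 * a + 1 ≤ N) ∧ (4 * a + 1) % 2 = 1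
            omega
          · simp only [Finset.mem_filter, Finset.mem_Icc]
            show (1 ≤ 2 * (a + b) + 1 ∧ 2 * (a + b) + 1 ≤ N) ∧ (2 * (a + b) + 1) % 2 = 1
            omega
          · simp only [Finset.mem_filter, Finset.mem_Icc]
            show (1 ≤ 4 * b + 1 ∧ 4 * b + 1 ≤ N) ∧ (4 * b + 1) % 2 = 1
            omega
        · rw [Fin.sum_univ_three]
          show (1 : ℤ) * ((4 * a + 1 : ℕ) : ℤ) + (-2) * ((2 * (a + b) + 1 : ℕ) : ℤ) +
            1 * ((4 * b + 1 : ℕ) : ℤ) = 0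
          push_cast
          ring
      exact hm
    · rintro ⟨a, b⟩ - ⟨a', b'⟩ - h
      have h0 : 4 * a + 1 = 4 * a' + 1 := congrFun h 0
      have h2 : 4 * b + 1 = 4 * b' + 1 := congrFun h 2
      have e1 : a = a' := by omega
      have e2 : b = b' := by omega
      rw [e1, e2]
  have h1 : (K * K : ℝ) ≤ ((sol ![1, -2, 1] N 0).card : ℝ) := by exact_mod_cast hcard
  have h2 : (N : ℝ) ≤ 4 * K := by
    have : N ≤ 4 * K := by omega
    exact_mod_cast this
  have h3 : (0 : ℝ) ≤ N := Nat.cast_nonneg N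
  nlinarith

theorem SM3 : Pool.Agent.L0h87.LE.SM3 := by
  intro n hn hn9
  obtain ⟨K, hK⟩ : ∃ K : ℕ, K = (n + 1) / 4 := ⟨_, rfl⟩
  have hcard : K * K ≤ (sol ![1, 1, 1] n n).card := by
    have h1 : ((range K) ×ˢ (range K)).card = K * K := by
      rw [Finset.card_product, Finset.card_range]
    rw [← h1]
    refine Finset.card_le_card_of_injOn
      (fun p => ![2 * p.1 + 1, 2 * p.2 + 1, n - (2 * p.1 + 1) - (2 * p.2 + 1)]) ?_ ?_
    · rintro ⟨a, b⟩ hp
      have hab : a < K ∧ b < K := by simpa using hp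
      have hm : (![2 * a + 1, 2 * b + 1, n - (2 * a + 1) - (2 * b + 1)] : Fin 3 → ℕ) ∈
          sol ![1, 1, 1] n n := by
        unfold sol odds
        rw [Finset.mem_filter, Fintype.mem_piFinset]
        refine ⟨fun i => ?_, ?_⟩
        · fin_cases i
          · simp only [Finset.mem_filter, Finset.mem_Icc]
            show (1 ≤ 2 * a + 1 ∧ 2 * a + 1 ≤ n) ∧ (2 * a + 1) % 2 = 1
            omega
          · simp only [Finset.mem_filter, Finset.mem_Icc]
            show (1 ≤ 2 * b + 1 ∧ 2 * b + 1 ≤ n) ∧ (2 * b + 1) % 2 = 1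
            omega
          · simp only [Finset.mem_filter, Finset.mem_Icc]
            show (1 ≤ n - (2 * a + 1) - (2 * b + 1) ∧ n - (2 * a + 1) - (2 * b + 1) ≤ n) ∧
              (n - (2 * a + 1) - (2 * b + 1)) % 2 = 1
            omega
        · rw [Fin.sum_univ_three]
          show (1 : ℤ) * ((2 * a + 1 : ℕ) : ℤ) + 1 * ((2 * b + 1 : ℕ) : ℤ) +
            1 * ((n - (2 * a + 1) - (2 * b + 1) : ℕ) : ℤ) = (n : ℤ)
          omega
      exact hm
    · rintro ⟨a, b⟩ - ⟨a', b'⟩ - h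
      have h0 : 2 * a + 1 = 2 * a' + 1 := congrFun h 0
      have h2 : 2 * b + 1 = 2 * b' + 1 := congrFun h 1
      have e1 : a = a' := by omega
      have e2 : b = b' := by omega
      rw [e1, e2]
  have h1 : (K * K : ℝ) ≤ ((sol ![1, 1, 1] n n).card : ℝ) := by exact_mod_cast hcard
  have h2 : (n : ℝ) ≤ 4 * K + 2 := by
    have : n ≤ 4 * K + 2 := by omega
    exact_mod_cast this
  have h3 : (9 : ℝ) ≤ n := by exact_mod_cast hn9
  have h4 : (n : ℝ) / 8 ≤ K := by linarith
  nlinarith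

end Pool.Agent.L0h56.LE
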