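import Pool.Agent.L0h87.LE.StmH

/-!
# Project LE: a density gives mean value zero (module MZD; helper56)
-/

set_option autoImplicit false
set_option linter.all false

namespace Pool.Agent.L0h56.LE

open Finset Filter Topology
open Pool.Agent.L0h87.LE

theorem odds_card (N : ℕ) : (odds N).card = (N + 1) / 2 := by
  have h : odds N = (range ((N + 1) / 2)).image (fun i => 2 * i + 1) := by
    ext n
    unfold odds
    rw [mem_filter, mem_Icc, mem_image]
    constructor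
    · rintro ⟨⟨h1, h2⟩, h3⟩
      refine ⟨n / 2, ?_, ?_⟩
      · rw [mem_range]; omega
      · omega
    · rintro ⟨i, hi, rfl⟩
      rw [mem_range] at hi
      omega
  rw [h, card_image_of_injective _ (fun a b hab => by simpa using hab), card_range]

theorem t_MZD : Pool.Agent.L0h87.LE.MZD := by
  classical
  intro P δ hP ε hε
  have h1 : ∀ᶠ N : ℕ in atTop,
      |2 / (N : ℝ) * ({m : ℕ | m ≤ N ∧ Odd m ∧ P m}.ncard : ℝ) - δ| < ε := by
    have := (Metric.tendsto_nhds.mp hP) ε hε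
    simpa [Real.dist_eq] using this
  have h2 := h1.and (eventually_ge_atTop (max 1 ⌈|δ| / ε⌉₊))
  obtain ⟨N₀, hN₀⟩ := eventually_atTop.mp h2
  refine ⟨N₀, fun N hN => ?_⟩
  obtain ⟨h3, h4⟩ := hN₀ N hN
  have hN1 : (1 : ℝ) ≤ N := by exact_mod_cast (le_max_left _ _).trans h4
  have hN0 : (0 : ℝ) < N := by linarith
  have hNδ : |δ| ≤ ε * N := by
    have h5 : |δ| / ε ≤ N := (Nat.le_ceil _).trans (by exact_mod_cast (le_max_right _ _).trans h4)
    rw [div_le_iff₀ hε] at h5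
    linarith
  have hset : {m : ℕ | m ≤ N ∧ Odd m ∧ P m} = (((odds N).filter P : Finset ℕ) : Set ℕ) := by
    ext m
    unfold odds
    rw [Set.mem_ofPred_eq, mem_coe, mem_filter, mem_filter, mem_Icc]
    constructor
    · rintro ⟨h5, h6, h7⟩
      rw [Nat.odd_iff] at h6
      exact ⟨⟨⟨by omega, h5⟩, h6⟩, h7⟩
    · rintro ⟨⟨⟨h5, h6⟩, h7⟩, h8⟩
      exact ⟨h6, Nat.odd_iff.mpr h7, h8⟩
  rw [hset, Set.ncard_coe_finset] at h3
  have hsum : ∑ n ∈ odds N, ((if P n then (1 : ℝ) else 0) - δ) =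
      (((odds N).filter P).card : ℝ) - δ * (((N + 1) / 2 : ℕ) : ℝ) := by
    rw [sum_sub_distrib, sum_const, odds_card, sum_ite, sum_const_zero, add_zero, sum_const,
      nsmul_eq_mul, nsmul_eq_mul, mul_one]
    ring
  have hodd : |(((N + 1) / 2 : ℕ) : ℝ) - N / 2| ≤ 1 / 2 := by
    have e1 : 2 * ((N + 1) / 2) ≤ N + 1 := by omega
    have e2 : N ≤ 2 * ((N + 1) / 2) := by omega
    have e1' : 2 * (((N + 1) / 2 : ℕ) : ℝ) ≤ N + 1 := by exact_mod_cast e1
    have e2' : (N : ℝ) ≤ 2 * (((N + 1) / 2 : ℕ) : ℝ) := by exact_mod_cast e2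
    rw [abs_le]
    constructor <;> linarith
  have h6 : |(((odds N).filter P).card : ℝ) - δ * (N / 2)| ≤ ε * N / 2 := by
    have e : (((odds N).filter P).card : ℝ) - δ * (N / 2) =
        (N / 2) * (2 / (N : ℝ) * (((odds N).filter P).card : ℝ) - δ) := by
      field_simp
    rw [e, abs_mul, abs_of_pos (by positivity : (0 : ℝ) < N / 2)]
    nlinarith
  show |∑ n ∈ odds N, ((if P n then (1 : ℝ) else 0) - δ)| ≤ ε * N
  rw [hsum]
  calc |(((odds N).filter P).card : ℝ) - δ * (((N + 1) / 2 : ℕ) : ℝ)|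
      = |((((odds N).filter P).card : ℝ) - δ * (N / 2)) - δ * ((((N + 1) / 2 : ℕ) : ℝ) - N / 2)| := by
        congr 1; ring
    _ ≤ |(((odds N).filter P).card : ℝ) - δ * (N / 2)| + |δ * ((((N + 1) / 2 : ℕ) : ℝ) - N / 2)| :=
        abs_sub _ _
    _ ≤ ε * N / 2 + |δ| * (1 / 2) := by
        rw [abs_mul]
        gcongr
    _ ≤ ε * N := by linarith

end Pool.Agent.L0h56.LE
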